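import Pool.Agent.Y914.SF.AsymptoticThree
import Pool.Agent.Y859.SF.D456

/-!
# Square products of factorials: asymptotic formulas for `N_3`, `N_4` and `N_5 + N_6`

`N_3(n) = κ √n + O(n ^ 0.499)`, `N_4(n) ~ (1 - 6/π²) n`, `N_5(n) + N_6(n) ~ (6/π²) n`, where each of
`N_5` and `N_6` has the order `n`. Up to sets of density zero `D_4` consists of the integers that are
not squarefree, and `D_5 ∪ D_6` of the squarefree ones; almost all squarefree integers with a prime
factor `≤ 11` lie in `D_5`.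

The part on `N_3` is due to helper914 (see `Pool.Agent.Y914.SF.AsymptoticThree`). The part on `N_4`
rests on the classification of the representations of almost all integers by at most four factorials
(project SF, 26 helpers, see `Pool.Agent.Y859.SF.All` and MP_9a49ed_nt.DensityOfD4).
-/

set_option autoImplicit false

namespace Pool.Agent.Results.MP_0b7501_nt.AsymptoticThreeFour

open Finset Filter

/-- `m` has a representation of length `k`: a set of `k` positive integers with largest element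
`m` such that the product of the factorials of its elements is a perfect square. -/
def HasRep (m k : ℕ) : Prop :=
  ∃ s : Finset ℕ, s.card = k ∧ m ∈ s ∧ (∀ a ∈ s, 1 ≤ a ∧ a ≤ m) ∧
    IsSquare (∏ a ∈ s, a.factorial)

/-- `m ∈ D_k`: the least `j ≥ 2` for which `m` has a representation of length `j` is `k`. -/
def InD (k m : ℕ) : Prop :=
  2 ≤ k ∧ HasRep m k ∧ ∀ j, 2 ≤ j → j < k → ¬ HasRep m j

open Classical in
/-- the counting function `N_k(n)` of `D_k` -/
noncomputable def N (k n : ℕ) : ℕ := ((Icc 1 n).filter (fun m => InD k m)).card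

/-- the squarefree parts `f > 1` of the factorials -/
def Fs : Set ℕ := {f | 1 < f ∧ Squarefree f ∧ ∃ c : ℕ, IsSquare (f * c.factorial)}

/-- the constant `κ`, the sum of `1 / √f` over the squarefree parts `f > 1` of the factorials -/
noncomputable def kappa : ℝ := ∑' f : Fs, 1 / Real.sqrt ((f : ℕ) : ℝ)

/-- the number of squarefree integers in `[1, n]` -/
noncomputable def Q (n : ℕ) : ℕ := ((Icc 1 n).filter (fun m => Squarefree m)).card

open Classical in
/-- (1) The sum `κ` converges, is positive, and `N_3(n) = κ √n + O(n ^ 0.499)`.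
(2) `N_4(n)/n → 1 - 6/π²`, and `N_4(n) ≥ n - Q(n) - C √n`.
(3) `(N_5(n) + N_6(n))/n → 6/π²`; `N_6(n) ≥ c n` for some `c > 0` and all large `n`; and for all
`ε > 0` and all large `n`: `N_5(n) ≥ (767/1152 · 6/π² - ε) n` and `N_6(n) ≤ (385/1152 · 6/π² + ε) n`.
(4) The set of the `m` for which the equivalence of `m ∈ D_4` and `m` not squarefree fails, or that of
`m ∈ D_5 ∪ D_6` and `m` squarefree fails, or `m ∈ D_6` is divisible by one of the primes
`2, 3, 5, 7, 11`, has density zero. -/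
theorem result :
    (Summable (fun f : Fs => 1 / Real.sqrt ((f : ℕ) : ℝ)) ∧ 0 < kappa ∧
      ∃ C : ℝ, 0 < C ∧ ∀ n : ℕ, 1 ≤ n →
        |(N 3 n : ℝ) - kappa * Real.sqrt n| ≤ C * (n : ℝ) ^ (499 / 1000 : ℝ)) ∧
    (Tendsto (fun n : ℕ => (N 4 n : ℝ) / n) atTop (nhds (1 - 6 / Real.pi ^ 2)) ∧
      ∃ C : ℝ, 0 < C ∧ ∀ n : ℕ, 1 ≤ n → (n : ℝ) - Q n - C * Real.sqrt n ≤ N 4 n) ∧
    (Tendsto (fun n : ℕ => ((N 5 n : ℝ) + N 6 n) / n) atTop (nhds (6 / Real.pi ^ 2)) ∧
      (∃ c : ℝ, 0 < c ∧ ∃ n₀ : ℕ, ∀ n : ℕ, n₀ ≤ n → c * n ≤ (N 6 n : ℝ)) ∧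
      ∀ ε : ℝ, 0 < ε → ∀ᶠ n : ℕ in atTop,
        (767 / 1152 * (6 / Real.pi ^ 2) - ε) * n ≤ N 5 n ∧
        (N 6 n : ℝ) ≤ (385 / 1152 * (6 / Real.pi ^ 2) + ε) * n) ∧
    Tendsto (fun n : ℕ => (((Icc 1 n).filter (fun m => ¬ (InD 4 m ↔ ¬ Squarefree m) ∨
      ¬ ((InD 5 m ∨ InD 6 m) ↔ Squarefree m) ∨ (InD 6 m ∧ ¬ m.Coprime 2310))).card : ℝ) / n)
      atTop (nhds 0) := by
  obtain ⟨a1, a2, a3, a4⟩ := AsymptoticThree.result
  obtain ⟨b1, b2, b3, b4⟩ := Y859.SF.D456.main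
  refine ⟨⟨a1.1, a1.2, a2⟩, ⟨b1, a4⟩, ⟨b2, ?_, b3⟩, b4⟩
  obtain ⟨c, hc, n₀, h⟩ := a3 6 (by norm_num) le_rfl
  exact ⟨c, hc, n₀, fun n hn => (h n hn).1⟩

end Pool.Agent.Results.MP_0b7501_nt.AsymptoticThreeFour
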